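import Mathlib
import Pool.Agent.Q156.Ang.Dual

set_option autoImplicit false

/-!
# The classes of the real normed spaces with the angles `∠_ρ` (MP_843c3c_an)

For `1 < γ < δ` and `1 < α < β` the classes `NORM_{-δ} ⊂ NORM_{-γ} ⊂ NORM ⊃ NORM_α ⊃ NORM_β` are
pairwise different.

Proof. Let `0 < λ < 1` and let `X` be the plane with the norm
`max (√(a² + λ b²), √(λ a² + b²))`. For unit vectors and `A = ‖x + y‖²/4`, `B = ‖x - y‖²/4` one has
`A + λ B ≤ 1`, `λ A + B ≤ 1`, and every point of the line `A + λ B = 1` with small `B` occurs; so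
`X ∈ NORM_ρ` if and only if `ρ ≤ (1 + λ) / (1 - λ)`, for `ρ ≥ 0`. Dually the unit vectors of the dual
space `X*` satisfy `A + B / λ ≥ 1`, `A / λ + B ≥ 1`, and `X* ∈ NORM_{-ρ}` if and only if
`ρ ≤ (1 + λ) / (1 - λ)`. At the corners of its unit circle `X` violates the condition of `NORM_{-ρ}`
for every `ρ > 1`, so `X` distinguishes `NORM_{-δ}`, `NORM_{-γ}` from `NORM_α`, `NORM_β`.
-/

namespace Pool.Agent.Results.MP_843c3c_an.FiveClasses

/-- A real normed space. -/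
structure RealNormedSpace : Type 1 where
  carrier : Type
  [group : NormedAddCommGroup carrier]
  [space : NormedSpace ℝ carrier]

attribute [instance] RealNormedSpace.group RealNormedSpace.space

section angle

variable {X : Type} [NormedAddCommGroup X] [NormedSpace ℝ X]

/-- `s = ‖x / ‖x‖ + y / ‖y‖‖` -/
noncomputable def s (x y : X) : ℝ := ‖‖x‖⁻¹ • x + ‖y‖⁻¹ • y‖

/-- `d = ‖x / ‖x‖ - y / ‖y‖‖` -/
noncomputable def d (x y : X) : ℝ := ‖‖x‖⁻¹ • x - ‖y‖⁻¹ • y‖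

/-- The generalised product `⟨x | y⟩_ρ`. -/
noncomputable def product (ρ : ℝ) (x y : X) : ℝ :=
  ‖x‖ * ‖y‖ * ((s x y ^ 2 - d x y ^ 2) / 4) * ((s x y ^ 2 + d x y ^ 2) / 4) ^ ρ

end angle

/-- The space `X` has the angle `∠_ρ`. -/
def HasAngle (ρ : ℝ) (X : Type) [NormedAddCommGroup X] [NormedSpace ℝ X] : Prop :=
  ∀ x y : X, x ≠ 0 → y ≠ 0 → |product ρ x y| ≤ ‖x‖ * ‖y‖

/-- The class of all real normed spaces. -/
def NORM : Set RealNormedSpace := Set.univ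

/-- The class of the real normed spaces which have the angle `∠_ρ`. -/
def NORMr (ρ : ℝ) : Set RealNormedSpace := {S | HasAngle ρ S.carrier}

open Pool.Agent.Q156.Ang

theorem hasAngle_iff (ρ : ℝ) (X : Type) [NormedAddCommGroup X] [NormedSpace ℝ X] :
    HasAngle ρ X ↔ Unit X ρ := by
  constructor
  · intro h x y hx hy
    have hx0 : x ≠ 0 := by rintro rfl; simp at hx
    have hy0 : y ≠ 0 := by rintro rfl; simp at hy
    have h1 := h x y hx0 hy0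
    unfold product s d at h1
    rw [hx, hy] at h1
    simp only [inv_one, one_smul, one_mul] at h1
    unfold Good
    have hp : 0 ≤ (‖x + y‖ ^ 2 + ‖x - y‖ ^ 2) / 4 := by positivity
    rw [abs_mul, abs_of_nonneg (Real.rpow_nonneg hp _)] at h1
    rw [← sub_div, ← add_div]
    exact h1
  · intro h x y hx hy
    have hx' : ‖x‖ ≠ 0 := norm_ne_zero_iff.2 hx
    have hy' : ‖y‖ ≠ 0 := norm_ne_zero_iff.2 hy
    have ux : ‖‖x‖⁻¹ • x‖ = 1 := by rw [norm_smul, norm_inv, norm_norm, inv_mul_cancel₀ hx']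
    have uy : ‖‖y‖⁻¹ • y‖ = 1 := by rw [norm_smul, norm_inv, norm_norm, inv_mul_cancel₀ hy']
    have h1 := h _ _ ux uy
    unfold Good at h1
    rw [← sub_div, ← add_div] at h1
    unfold product s d
    have hp : 0 ≤ (‖‖x‖⁻¹ • x + ‖y‖⁻¹ • y‖ ^ 2 + ‖‖x‖⁻¹ • x - ‖y‖⁻¹ • y‖ ^ 2) / 4 := by positivity
    rw [mul_assoc (‖x‖ * ‖y‖), abs_mul, abs_of_nonneg (by positivity : 0 ≤ ‖x‖ * ‖y‖), abs_mul,
      abs_of_nonneg (Real.rpow_nonneg hp _)]
    exact mul_le_of_le_one_right (by positivity) h1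

/-- A parameter `m` with `(1 + m²) / (1 - m²) = r`. -/
theorem exists_m {r : ℝ} (hr : 1 < r) :
    ∃ m : ℝ, 0 < m ∧ m < 1 ∧ (1 + m ^ 2) / (1 - m ^ 2) = r := by
  have h0 : 0 < (r - 1) / (r + 1) := div_pos (by linarith) (by linarith)
  have h1 : (r - 1) / (r + 1) < 1 := by rw [div_lt_one (by linarith)]; linarith
  refine ⟨√((r - 1) / (r + 1)), Real.sqrt_pos.2 h0, ?_, ?_⟩
  · rw [Real.sqrt_lt' one_pos]; simpa using h1
  · rw [Real.sq_sqrt h0.le]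
    have : r + 1 ≠ 0 := by linarith
    field_simp
    ring

/-- **Theorem.** For `1 < γ < δ` and `1 < α < β` the inclusions
`NORM_{-δ} ⊂ NORM_{-γ} ⊂ NORM`, `NORM_β ⊂ NORM_α ⊂ NORM` are strict and the five classes are pairwise
different. -/
theorem result (α β γ δ : ℝ) (hγ : 1 < γ) (hγδ : γ < δ) (hα : 1 < α) (hαβ : α < β) :
    NORMr (-δ) ⊂ NORMr (-γ) ∧ NORMr (-γ) ⊂ NORM ∧ NORMr α ⊂ NORM ∧ NORMr β ⊂ NORMr α ∧
      [NORMr (-δ), NORMr (-γ), NORM, NORMr α, NORMr β].Pairwise (· ≠ ·) := by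
  -- the spaces
  obtain ⟨m₁, h10, h11, h1⟩ := exists_m hγ
  obtain ⟨m₂, h20, h21, h2⟩ := exists_m hα
  obtain ⟨m₃, h30, h31, h3⟩ := exists_m (hα.trans hαβ)
  obtain ⟨m₄, h40, h41, h4⟩ := exists_m (show (1 : ℝ) < (1 + α) / 2 by linarith)
  let S₁ : RealNormedSpace := ⟨Du m₁⟩
  let S₂ : RealNormedSpace := ⟨W m₂⟩
  let S₃ : RealNormedSpace := ⟨W m₃⟩
  let S₄ : RealNormedSpace := ⟨W m₄⟩
  have a1 : S₁ ∈ NORMr (-γ) := (hasAngle_iff _ _).2 (unit_Du h10 h11 (by linarith) h1.ge)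
  have a2 : S₁ ∉ NORMr (-δ) := fun h =>
    not_unit_Du h10 h11 (by rw [h1]; exact hγδ) ((hasAngle_iff _ _).1 h)
  have b1 : S₂ ∈ NORMr α := (hasAngle_iff _ _).2 (unit_W h20 h21 (by linarith) h2.ge)
  have b2 : S₂ ∉ NORMr β := fun h =>
    not_unit_W h20 h21 (by rw [h2]; exact hαβ) ((hasAngle_iff _ _).1 h)
  have c1 : S₃ ∈ NORMr β := (hasAngle_iff _ _).2 (unit_W h30 h31 (by linarith) h3.ge)
  have c2 : S₃ ∉ NORMr (-γ) := fun h => corner h30 h31 hγ ((hasAngle_iff _ _).1 h)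
  have d1 : S₄ ∉ NORMr α := fun h =>
    not_unit_W h40 h41 (by rw [h4]; linarith) ((hasAngle_iff _ _).1 h)
  -- the inclusions
  have i1 : NORMr (-δ) ⊆ NORMr (-γ) := fun S hS =>
    (hasAngle_iff _ _).2 (unit_mono_neg (by linarith) hγδ.le ((hasAngle_iff _ _).1 hS))
  have i2 : NORMr β ⊆ NORMr α := fun S hS =>
    (hasAngle_iff _ _).2 (unit_mono_pos (by linarith) hαβ.le ((hasAngle_iff _ _).1 hS))
  have i3 : ∀ ρ, NORMr ρ ⊆ NORM := fun ρ S _ => Set.mem_univ S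
  have u : ∀ S, S ∈ NORM := fun S => Set.mem_univ S
  refine ⟨⟨i1, fun h => a2 (h a1)⟩, ⟨i3 _, fun h => c2 (h (u _))⟩, ⟨i3 _, fun h => d1 (h (u _))⟩,
    ⟨i2, fun h => b2 (h b1)⟩, ?_⟩
  simp only [List.pairwise_cons, List.mem_cons, List.not_mem_nil, or_false, forall_eq_or_imp,
    forall_eq, IsEmpty.forall_iff, implies_true, List.Pairwise.nil, and_true]
  refine ⟨⟨fun h => a2 (h ▸ a1), fun h => a2 (h ▸ u _), fun h => c2 (i1 (h ▸ i2 c1)),
    fun h => c2 (i1 (h ▸ c1))⟩, ⟨fun h => c2 (h ▸ u _), fun h => c2 (h ▸ i2 c1),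
    fun h => c2 (h ▸ c1)⟩, ⟨fun h => d1 (h ▸ u _), fun h => b2 (h ▸ u _)⟩, fun h => b2 (h ▸ b1)⟩

end Pool.Agent.Results.MP_843c3c_an.FiveClasses
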